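import Pool.Agent.Helper66.TU.Defs

/-!
# The values `3 x - 1` at the generators span the residue field (TU module SPAN)
-/

namespace GWA

section SPAN

variable {K : Type} [NormedField K] [Algebra GaussianInt K] [NeZero (2 : K)] [DecidableEq K]
  {π : GaussianInt} {k : Type} [Field k] [Algebra GaussianInt k] {r : K → k}

omit [NeZero (2 : K)] [DecidableEq K] in
private theorem r_zero (h : LHU K π) (hr : RMap K k r) : r 0 = 0 :=
  (hr.eq_zero 0 (by simp)).2 (by simp)

omit [NeZero (2 : K)] [DecidableEq K] in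
private theorem r_neg (h : LHU K π) (hr : RMap K k r) {x : K} (hx : ‖x‖ ≤ 1) : r (-x) = - r x := by
  have h1 := hr.add x (-x) hx (by rwa [norm_neg])
  rw [add_neg_cancel, r_zero h hr] at h1
  exact eq_neg_of_add_eq_zero_right h1.symm

omit [NeZero (2 : K)] [DecidableEq K] in
private theorem r_sub (h : LHU K π) (hr : RMap K k r) {x y : K} (hx : ‖x‖ ≤ 1) (hy : ‖y‖ ≤ 1) :
    r (x - y) = r x - r y := by
  rw [sub_eq_add_neg, hr.add x (-y) hx (by rwa [norm_neg]), r_neg h hr hy, sub_eq_add_neg]

omit [NeZero (2 : K)] [DecidableEq K] in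
private theorem r_eq (h : LHU K π) (hr : RMap K k r) {x y : K} (hx : ‖x‖ ≤ 1) (hy : ‖y‖ ≤ 1)
    (hxy : r x = r y) : ‖x - y‖ < 1 := by
  rw [← hr.eq_zero _ ((h.norm_sub_le x y).trans (max_le hx hy)), r_sub h hr hx hy, hxy, sub_self]

/-- a proper submodule of the residue field is small -/
private theorem card_sub (hπ : Prime π) (hπ0 : algebraMap GaussianInt k π = 0) [Finite k]
    (V : Submodule GaussianInt k) (hV : V ≠ ⊤) :
    π.norm.natAbs * Nat.card V ≤ Nat.card k := by
  obtain ⟨w, hw⟩ : ∃ w : k, w ∉ V := by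
    by_contra hc
    push Not at hc
    exact hV (eq_top_iff.2 fun x _ => hc x)
  have hinj : Function.Injective
      (fun p : (GaussianInt ⧸ Ideal.span {π}) × V => (Quotient.out p.1 • w + (p.2 : k) : k)) := by
    rintro ⟨a, x⟩ ⟨b, y⟩ hab
    simp only at hab
    have h1 : (Quotient.out a - Quotient.out b) • w ∈ V := by
      have : (Quotient.out a - Quotient.out b) • w = (y : k) - x := by
        rw [sub_smul]
        linear_combination hab
      rw [this]
      exact V.sub_mem y.2 x.2
    have h2 : π ∣ Quotient.out a - Quotient.out b := by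
      by_contra hc
      obtain ⟨u, v, huv⟩ := bezout hπ hc
      apply hw
      have h3 : w = v • ((Quotient.out a - Quotient.out b) • w) := by
        rw [smul_smul]
        have : (v * (Quotient.out a - Quotient.out b)) = 1 - u * π := by rw [← huv]; ring
        rw [this, sub_smul, one_smul, mul_smul, Algebra.smul_def π w, hπ0]
        simp
      rw [h3]
      exact V.smul_mem _ h1
    have h4 : a = b := by
      rw [← Quotient.out_eq a, ← Quotient.out_eq b]
      exact (Ideal.Quotient.eq (I := Ideal.span {π})).2 (Ideal.mem_span_singleton.2 h2)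
    subst h4
    have h5 : (x : k) = y := by linear_combination hab
    rw [Prod.mk.injEq]
    exact ⟨rfl, Subtype.ext h5⟩
  have h6 := Nat.card_le_card_of_injective _ hinj
  rwa [Nat.card_prod, card_quot] at h6

theorem LHU.span_top (h : LHU K π) (hr : RMap K k r) [Finite k] (h3 : ¬ π ∣ 3) {d : Kˣ}
    (hd : ‖(d : K)‖ = 1) {g : E (d : K)} {n : GaussianInt} (hg : Gen π d g n)
    (hn4 : 4 < n.norm.natAbs)
    (hbig : 2 * Nat.card k + 4 * π.norm.natAbs <
      π.norm.natAbs * Nat.card (GaussianInt ⧸ Ideal.span {n})ˣ) :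
    SpanTop r d g n := by
  have _ := hd
  have hd0 := d.ne_zero
  unfold SpanTop
  by_contra hV
  set V := Submodule.span GaussianInt {c : k | ∃ u v : GaussianInt, n ∣ u * v - 1 ∧ Ord (u • g) ∧
    c = r (3 * nx (u • g) - 1)} with hVdef
  have hn3 : ‖(3 : K)‖ = 1 := by
    have := h.norm_eq_one h3
    rwa [map_ofNat] at this
  have hπ0 : algebraMap GaussianInt k π = 0 := by
    rw [← hr.coe]
    exact (hr.eq_zero _ h.norm_pi.le).2 h.norm_pi
  have hcV := card_sub h.prime hπ0 V hV
  -- n does not divide 2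
  have hn2 : ¬ n ∣ 2 := by
    rintro ⟨m, hm⟩
    have h1 := congrArg (fun z : GaussianInt => (Zsqrtd.norm z).natAbs) hm
    simp only [Zsqrtd.norm_mul, Int.natAbs_mul] at h1
    have h2 : (Zsqrtd.norm (2 : GaussianInt)).natAbs = 4 := by decide
    rw [h2] at h1
    have h3 : m.norm.natAbs ≠ 0 := by
      intro h0
      rw [h0] at h1
      omega
    have h4 : 1 ≤ m.norm.natAbs := Nat.one_le_iff_ne_zero.2 h3
    nlinarith
  -- the points u g, u a unit modulo n
  have key : ∀ u v : GaussianInt, n ∣ u * v - 1 → u • g ≠ 0 ∧ ‖nx (u • g)‖ ≤ 1 ∧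
      ‖ff (nx (u • g))‖ = 1 := by
    intro u v huv
    have hnot : ∀ κ : GaussianInt, u • g - κ • T hd0 ∉ nb π (d : K) 0 := by
      intro κ hκ
      have h1 := h.nb_smul d 0 (2 * v) hκ
      have hT : (2 : GaussianInt) • T hd0 = 0 := by
        have : (2 : GaussianInt) = 1 + 1 := by norm_num
        rw [this, add_smul, one_smul]
        nth_rewrite 1 [← neg_T hd0]
        exact neg_add_cancel _
      have h2 : (2 * v) • (u • g - κ • T hd0) = (2 * (u * v)) • g := by
        rw [smul_sub, smul_smul, smul_smul]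
        have e1 : 2 * v * κ = (v * κ) * 2 := by ring
        have e2 : 2 * v * u = 2 * (u * v) := by ring
        rw [e1, mul_smul (v * κ) 2, hT, smul_zero, sub_zero, e2]
      rw [h2, hg.mem] at h1
      apply hn2
      have e3 : (2 : GaussianInt) = 2 * (u * v) - 2 * (u * v - 1) := by ring
      rw [e3]
      exact dvd_sub h1 (huv.mul_left 2)
    rcases h.node_or h.odd d (u • g) with ⟨κ, hκ⟩ | ⟨h0, hx, h1, h2, -⟩
    · exact absurd hκ (hnot κ)
    · refine ⟨h0, hx.le, ?_⟩
      have : ff (nx (u • g)) = nx (u • g) * (nx (u • g) - 1) * (nx (u • g) + 1) := by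
        unfold ff; ring
      rw [this, norm_mul, norm_mul, hx, h1, h2]
      norm_num
  -- lifts of the units
  have lift : ∀ w : (GaussianInt ⧸ Ideal.span {n})ˣ, ∃ u v : GaussianInt,
      Ideal.Quotient.mk (Ideal.span {n}) u = w ∧ n ∣ u * v - 1 := by
    intro w
    obtain ⟨u, hu⟩ := Ideal.Quotient.mk_surjective (w : GaussianInt ⧸ Ideal.span {n})
    obtain ⟨v, hv⟩ := Ideal.Quotient.mk_surjective
      ((w⁻¹ : (GaussianInt ⧸ Ideal.span {n})ˣ) : GaussianInt ⧸ Ideal.span {n})
    refine ⟨u, v, hu, ?_⟩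
    rw [← Ideal.mem_span_singleton, ← Ideal.Quotient.eq, map_mul, hu, hv, map_one]
    exact Units.mul_inv w
  choose U W hU hUW using lift
  -- three is a unit
  have hmem : ∀ w, r (3 * nx (U w • g) - 1) ∈ V := by
    intro w
    obtain ⟨h0, hx, hf⟩ := key _ _ (hUW w)
    have hle : ‖3 * nx (U w • g) - 1‖ ≤ 1 := by
      refine (h.norm_sub_le _ _).trans (max_le ?_ (by rw [norm_one]))
      rw [norm_mul, hn3, one_mul]
      exact hx
    by_cases hlt : ‖3 * nx (U w • g) - 1‖ < 1
    · rw [(hr.eq_zero _ hle).2 hlt]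
      exact V.zero_mem
    · apply Submodule.subset_span
      exact ⟨U w, W w, hUW w, ⟨hx, hf, le_antisymm hle (not_lt.1 hlt)⟩, rfl⟩
  have h2 := card_le_of_two (A := (GaussianInt ⧸ Ideal.span {n})ˣ) (B := V) (fun w => -w)
    (fun w => ⟨r (3 * nx (U w • g) - 1), hmem w⟩) (by
      intro a b hab
      rw [Subtype.mk.injEq] at hab
      obtain ⟨ha0, hax, -⟩ := key _ _ (hUW a)
      obtain ⟨hb0, hbx, -⟩ := key _ _ (hUW b)
      have l1 : ‖3 * nx (U a • g) - 1‖ ≤ 1 := by
        refine (h.norm_sub_le _ _).trans (max_le ?_ (by rw [norm_one]))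
        rw [norm_mul, hn3, one_mul]
        exact hax
      have l2 : ‖3 * nx (U b • g) - 1‖ ≤ 1 := by
        refine (h.norm_sub_le _ _).trans (max_le ?_ (by rw [norm_one]))
        rw [norm_mul, hn3, one_mul]
        exact hbx
      have h4 := r_eq h hr l1 l2 hab
      have e1 : 3 * nx (U a • g) - 1 - (3 * nx (U b • g) - 1) =
        3 * (nx (U a • g) - nx (U b • g)) := by ring
      rw [e1, norm_mul, hn3, one_mul] at h4
      rcases h.res_diff h.odd hd0 ha0 hb0 hax hbx h4 with h5 | h5
      · left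
        rw [← sub_smul, hg.mem, ← Ideal.mem_span_singleton, ← Ideal.Quotient.eq, hU, hU] at h5
        exact Units.ext h5
      · right
        rw [← add_smul, hg.mem, ← sub_neg_eq_add, ← Ideal.mem_span_singleton,
          ← Ideal.Quotient.eq, map_neg, hU, hU] at h5
        exact Units.ext h5)
  have h5 := h2.2
  have h6 : π.norm.natAbs * Nat.card (GaussianInt ⧸ Ideal.span {n})ˣ ≤ 2 * Nat.card k := by
    calc π.norm.natAbs * Nat.card (GaussianInt ⧸ Ideal.span {n})ˣ
        ≤ π.norm.natAbs * (2 * Nat.card V) := Nat.mul_le_mul_left _ h5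
      _ = 2 * (π.norm.natAbs * Nat.card V) := by ring
      _ ≤ 2 * Nat.card k := Nat.mul_le_mul_left _ hcV
  omega

end SPAN

end GWA
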